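import Pool.Agent.W106.HT.Stm

set_option autoImplicit false

/-! HT project, task HT-FIN: the final inequality from the head and the tail. -/

namespace Pool.Agent.W583.HT

open Pool.Agent.W106.HT
open Finset

theorem sumA_eq (q : ℕ) (a : ℕ → ℝ) (h0 : a 0 = 0) (h7 : a (q + 7) = 0) (k : ℕ) :
    sumA (q + 6) (fun i => lfA (q + 6) i ^ k * plA (q + 6) a i) =
      a 2 + a (q + 5) + 2 ^ k * (a 1 + a 2 + a (q + 5) + a (q + 6) +
        2 * (a 3 + a 4 + ∑ i ∈ Ico 4 (q + 4), a (i + 1))) := by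
  have hI : Icc 1 (q + 6) = Ico 1 (q + 7) := by
    ext i; simp only [Finset.mem_Icc, Finset.mem_Ico]; omega
  unfold sumA
  beta_reduce
  rw [hI, Finset.sum_eq_sum_Ico_succ_bot (by omega : 1 < q + 7),
    Finset.sum_Ico_succ_top (by omega : 1 + 1 ≤ q + 6)]
  have e1 : lfA (q + 6) 1 ^ k * plA (q + 6) a 1 = a 2 := by
    have h1 : lfA (q + 6) 1 = 1 := by
      unfold lfA; rw [if_neg (by omega), if_pos (by omega)]
    have h2 : plA (q + 6) a 1 = a 2 := by
      unfold plA; rw [if_pos (by omega)]; simp [h0]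
    rw [h1, h2, one_pow, one_mul]
  have e2 : lfA (q + 6) (q + 6) ^ k * plA (q + 6) a (q + 6) = a (q + 5) := by
    have h1 : lfA (q + 6) (q + 6) = 1 := by
      unfold lfA; rw [if_neg (by omega), if_pos (by omega)]
    have h2 : plA (q + 6) a (q + 6) = a (q + 5) := by
      unfold plA; rw [if_pos (by omega), show q + 6 + 1 = q + 7 by ring, h7,
        show q + 6 - 1 = q + 5 by omega, add_zero]
    rw [h1, h2, one_pow, one_mul]
  have e3 : ∑ i ∈ Ico (1 + 1) (q + 6), lfA (q + 6) i ^ k * plA (q + 6) a i =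
      2 ^ k * ∑ i ∈ Ico 2 (q + 6), (a (i - 1) + a (i + 1)) := by
    rw [Finset.mul_sum]
    apply Finset.sum_congr rfl
    intro i hi
    rw [Finset.mem_Ico] at hi
    have h1 : lfA (q + 6) i = 2 := by
      unfold lfA; rw [if_neg (by omega), if_neg (by omega)]
    have h2 : plA (q + 6) a i = a (i - 1) + a (i + 1) := by
      unfold plA; rw [if_pos (by omega)]
    rw [h1, h2]
  have e4 : ∑ i ∈ Ico 2 (q + 6), (a (i - 1) + a (i + 1)) =
      a 1 + a 2 + a (q + 5) + a (q + 6) + 2 * (a 3 + a 4 + ∑ i ∈ Ico 4 (q + 4), a (i + 1)) := by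
    rw [Finset.sum_add_distrib]
    have g1 : ∑ i ∈ Ico 2 (q + 6), a (i - 1) = ∑ i ∈ Ico 1 (q + 5), a i := by
      rw [Finset.sum_Ico_eq_sum_range, Finset.sum_Ico_eq_sum_range]
      apply Finset.sum_congr (by congr 1)
      intro i _
      congr 1
      omega
    have g2 : ∑ i ∈ Ico 2 (q + 6), a (i + 1) = ∑ i ∈ Ico 3 (q + 7), a i := by
      rw [Finset.sum_Ico_eq_sum_range, Finset.sum_Ico_eq_sum_range]
      apply Finset.sum_congr (by congr 1)
      intro i _
      congr 1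
      omega
    have g3 : ∑ i ∈ Ico 3 (q + 5), a i = a 3 + a 4 + ∑ i ∈ Ico 4 (q + 4), a (i + 1) := by
      rw [Finset.sum_eq_sum_Ico_succ_bot (by omega : 3 < q + 5),
        Finset.sum_eq_sum_Ico_succ_bot (by omega : 3 + 1 < q + 5)]
      have : ∑ i ∈ Ico (3 + 1 + 1) (q + 5), a i = ∑ i ∈ Ico 4 (q + 4), a (i + 1) := by
        rw [Finset.sum_Ico_eq_sum_range, Finset.sum_Ico_eq_sum_range]
        apply Finset.sum_congr (by congr 1)
        intro i _
        congr 1
        omega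
      rw [this]
      ring
    rw [g1, g2, Finset.sum_eq_sum_Ico_succ_bot (by omega : 1 < q + 5),
      Finset.sum_eq_sum_Ico_succ_bot (by omega : 1 + 1 < q + 5),
      Finset.sum_Ico_succ_top (by omega : 3 ≤ q + 6),
      Finset.sum_Ico_succ_top (by omega : 3 ≤ q + 5)]
    have g4 : Ico (1 + 1 + 1) (q + 5) = Ico 3 (q + 5) := rfl
    rw [g4, g3]
    ring
  rw [e1, e2, e3, e4]
  ring

theorem sumD_eq (q : ℕ) (d : ℕ → ℝ) (h6 : d (q + 6) = 0) (k : ℕ) :
    sumD (q + 6) (fun j => lfD (q + 6) j ^ k * plD (q + 6) d j) =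
      2 * d 2 + 3 ^ k * (2 * d 1 + d 3) + 2 ^ k * (d 2 + d 3 + d (q + 4) + d (q + 5) +
        2 * ∑ i ∈ Ico 4 (q + 4), d i) + d (q + 4) := by
  have hI : Icc 1 (q + 6 - 1) = Ico 1 (q + 6) := by
    ext i; simp only [Finset.mem_Icc, Finset.mem_Ico]; omega
  unfold sumD
  beta_reduce
  rw [hI, Finset.sum_eq_sum_Ico_succ_bot (by omega : 1 < q + 6),
    Finset.sum_eq_sum_Ico_succ_bot (by omega : 1 + 1 < q + 6),
    Finset.sum_Ico_succ_top (by omega : 1 + 1 + 1 ≤ q + 5)]
  have e1 : lfD (q + 6) 1 ^ k * plD (q + 6) d 1 = d 2 := by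
    have h1 : lfD (q + 6) 1 = 1 := by
      unfold lfD; rw [if_neg (by omega), if_pos (by omega)]
    have h2 : plD (q + 6) d 1 = d 2 := by
      unfold plD; rw [if_neg (by omega), if_pos rfl]
    rw [h1, h2, one_pow, one_mul]
  have e1' : lfD (q + 6) (1 + 1) ^ k * plD (q + 6) d (1 + 1) = 3 ^ k * (2 * d 1 + d 3) := by
    have h1 : lfD (q + 6) (1 + 1) = 3 := by
      unfold lfD; rw [if_neg (by omega), if_neg (by omega), if_pos (by omega)]
    have h2 : plD (q + 6) d (1 + 1) = 2 * d 1 + d 3 := by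
      unfold plD; rw [if_neg (by omega), if_neg (by omega), if_pos (by omega)]
    rw [h1, h2]
  have e2 : lfD (q + 6) (q + 5) ^ k * plD (q + 6) d (q + 5) = d (q + 4) := by
    have h1 : lfD (q + 6) (q + 5) = 1 := by
      unfold lfD; rw [if_neg (by omega), if_pos (by omega)]
    have h2 : plD (q + 6) d (q + 5) = d (q + 4) := by
      unfold plD; rw [if_neg (by omega), if_neg (by omega), if_neg (by omega), if_pos (by omega),
        show q + 5 + 1 = q + 6 by ring, h6, show q + 5 - 1 = q + 4 by omega, add_zero]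
    rw [h1, h2, one_pow, one_mul]
  have e3 : ∑ i ∈ Ico (1 + 1 + 1) (q + 5), lfD (q + 6) i ^ k * plD (q + 6) d i =
      2 ^ k * ∑ i ∈ Ico 3 (q + 5), (d (i - 1) + d (i + 1)) := by
    rw [Finset.mul_sum]
    apply Finset.sum_congr rfl
    intro i hi
    rw [Finset.mem_Ico] at hi
    have h1 : lfD (q + 6) i = 2 := by
      unfold lfD; rw [if_neg (by omega), if_neg (by omega), if_neg (by omega)]
    have h2 : plD (q + 6) d i = d (i - 1) + d (i + 1) := by
      unfold plD; rw [if_neg (by omega), if_neg (by omega), if_neg (by omega), if_pos (by omega)]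
    rw [h1, h2]
  have e4 : ∑ i ∈ Ico 3 (q + 5), (d (i - 1) + d (i + 1)) =
      d 2 + d 3 + d (q + 4) + d (q + 5) + 2 * ∑ i ∈ Ico 4 (q + 4), d i := by
    rw [Finset.sum_add_distrib]
    have g1 : ∑ i ∈ Ico 3 (q + 5), d (i - 1) = ∑ i ∈ Ico 2 (q + 4), d i := by
      rw [Finset.sum_Ico_eq_sum_range, Finset.sum_Ico_eq_sum_range]
      apply Finset.sum_congr (by congr 1)
      intro i _
      congr 1
      omega
    have g2 : ∑ i ∈ Ico 3 (q + 5), d (i + 1) = ∑ i ∈ Ico 4 (q + 6), d i := by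
      rw [Finset.sum_Ico_eq_sum_range, Finset.sum_Ico_eq_sum_range]
      apply Finset.sum_congr (by congr 1)
      intro i _
      congr 1
      omega
    rw [g1, g2, Finset.sum_eq_sum_Ico_succ_bot (by omega : 2 < q + 4),
      Finset.sum_eq_sum_Ico_succ_bot (by omega : 2 + 1 < q + 4),
      Finset.sum_Ico_succ_top (by omega : 4 ≤ q + 5),
      Finset.sum_Ico_succ_top (by omega : 4 ≤ q + 4)]
    have g4 : Ico (2 + 1 + 1) (q + 4) = Ico 4 (q + 4) := rfl
    rw [g4]
    ring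
  rw [e1, e1', e2, e3, e4]
  ring

theorem fin (h1 : S_tail) (h2 : S_H) : S_fin := by
  intro n hn he a d ha hd hV hα k hk
  have ht := h1 n hn he a d ha hd hV (2 ^ k) (by
    calc (2 : ℝ) = 2 ^ 1 := by norm_num
      _ ≤ 2 ^ k := pow_le_pow_right₀ (by norm_num) hk)
  have a12 := ha.mono 1 (by omega) (by omega)
  have a23 := ha.mono 2 (by omega) (by omega)
  have a34 : a 3 ≤ a 4 := by
    rcases Nat.lt_or_ge n 8 with h | h
    · have hn6 : n = 6 := by
        obtain ⟨m, rfl⟩ := he; omega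
      subst hn6
      have := ha.sym 3 (by omega) (by omega)
      exact this.symm.le
    · exact ha.mono 3 (by omega) (by omega)
  have hV2 := hV 2 (by omega) (by omega)
  have a4p : 0 < a 4 := ha.pos 4 (by omega) (by omega)
  have hH := h2 k hk (a 1) (a 2) (a 3) (a 4) (d 1) (d 2) (d 3) (ha.pos 1 (by omega) (by omega))
    a12 a23 a34 (hd.pos 1 (by omega) (by omega)) (hd.pos 2 (by omega) (by omega))
    (hd.pos 3 (by omega) (by omega)) hV2 hα
  obtain ⟨q, rfl⟩ : ∃ q, n = q + 6 := ⟨n - 6, by omega⟩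
  rw [sumA_eq q a ha.zero (ha.zero' _ (by omega)) k, sumD_eq q d (hd.zero' _ (by omega)) k]
  have hI : Icc 4 (q + 6 - 3) = Ico 4 (q + 4) := by
    ext i
    simp only [Finset.mem_Icc, Finset.mem_Ico]
    omega
  rw [hI, show q + 6 - 2 = q + 4 by omega, show q + 6 - 1 = q + 5 by omega, ← Finset.mul_sum,
    Finset.sum_sub_distrib] at ht
  generalize (2 : ℝ) ^ k = β at *
  generalize (3 : ℝ) ^ k = α at *
  have e : d 3 = a 4 * (d 3 / a 4) := by field_simp
  generalize ∑ i ∈ Ico 4 (q + 4), d i = SD at *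
  generalize ∑ i ∈ Ico 4 (q + 4), a (i + 1) = SA at *
  generalize d 3 / a 4 = ρ at *
  rw [e]
  linarith

end Pool.Agent.W583.HT
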