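import Pool.Agent.W106.HT.Stm

set_option autoImplicit false

/-! HT project, task HT-H: one real inequality. -/

namespace Pool.Agent.W583.HT

open Pool.Agent.W106.HT

/-- facts on the powers of two and three -/
theorem pow_facts (k : ℕ) (hk : 1 ≤ k) :
    (2 : ℝ) ≤ 2 ^ k ∧ (2 : ℝ) ^ k + 1 ≤ 3 ^ k ∧
    4 * ((2 : ℝ) ^ k) ^ 2 ≤ (2 + 2 ^ k) * (3 ^ k + 2 ^ k) ∧
    (k = 1 ∨ k = 2 ∨ ((8 : ℝ) ≤ 2 ^ k ∧ 3 * (2 : ℝ) ^ k ≤ 3 ^ k)) := by
  rcases Nat.lt_or_ge k 3 with h | h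
  · interval_cases k <;> norm_num
  · have h8 : (8 : ℝ) ≤ 2 ^ k := by
      calc (8 : ℝ) = 2 ^ 3 := by norm_num
        _ ≤ 2 ^ k := pow_le_pow_right₀ (by norm_num) h
    have h3 : 3 * (2 : ℝ) ^ k ≤ 3 ^ k := by
      obtain ⟨m, rfl⟩ := Nat.exists_eq_add_of_le h
      have h23 : (2 : ℝ) ^ m ≤ 3 ^ m := pow_le_pow_left₀ (by norm_num) (by norm_num) m
      have h2 : (0 : ℝ) < 2 ^ m := by positivity
      rw [pow_add, pow_add]
      nlinarith
    refine ⟨by linarith, by linarith, by nlinarith, Or.inr (Or.inr ⟨h8, h3⟩)⟩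

/-- the inequality used if `ω ≤ α a₄` -/
theorem case1 (k : ℕ) (hk : 1 ≤ k) (a1 a2 a3 a4 : ℝ) (h1 : 0 < a1) (h12 : a1 ≤ a2) (h23 : a2 ≤ a3)
    (h34 : a3 ≤ a4) :
    ((2 : ℝ) ^ k) ^ 2 * a4 * (4 * a3 + a1) ≤ (2 + 2 ^ k) *
      (((3 : ℝ) ^ k - 2 ^ k) * a4 + 2 * 2 ^ k * a3 + 2 ^ k * a1 - (2 ^ k + 1) * a2) * (a2 + a4) := by
  obtain ⟨hb2, -, -, hc⟩ := pow_facts k hk
  rcases hc with rfl | rfl | ⟨h8, h3⟩
  · norm_num
    nlinarith [sq_nonneg (a4 - a2), mul_nonneg (by linarith : (0 : ℝ) ≤ a2) (sub_nonneg.2 h23),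
      mul_pos h1 (by linarith : (0 : ℝ) < a2), mul_pos h1 (by linarith : (0 : ℝ) < a4)]
  · norm_num
    nlinarith [mul_nonneg (by linarith : (0 : ℝ) ≤ a2) (sub_nonneg.2 h23),
      mul_nonneg (by linarith : (0 : ℝ) ≤ a4) (sub_nonneg.2 h34),
      mul_pos h1 (by linarith : (0 : ℝ) < a2), mul_pos h1 (by linarith : (0 : ℝ) < a4),
      mul_self_nonneg a4, mul_self_nonneg a2]
  · generalize hβ : (2 : ℝ) ^ k = β at *
    generalize hα : (3 : ℝ) ^ k = α at *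
    have hβ0 : 0 < β := by linarith
    have hω : β * (2 * a4 + 2 * a3 + a1 - 9 / 8 * a2) ≤
        (α - β) * a4 + 2 * β * a3 + β * a1 - (β + 1) * a2 := by
      have e1 : (3 * β) * a4 ≤ α * a4 := mul_le_mul_of_nonneg_right h3 (by linarith)
      have e2 : 8 * a2 ≤ β * a2 := mul_le_mul_of_nonneg_right h8 (by linarith)
      nlinarith
    have e3 : a4 * (4 * a3 + a1) ≤ (2 * a4 + 2 * a3 + a1 - 9 / 8 * a2) * (a2 + a4) := by
      nlinarith [mul_nonneg (by linarith : (0 : ℝ) ≤ a2) (sub_nonneg.2 h23),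
        mul_nonneg (by linarith : (0 : ℝ) ≤ a4) (sub_nonneg.2 h34),
        mul_pos h1 (by linarith : (0 : ℝ) < a2), mul_nonneg (by linarith : (0 : ℝ) ≤ a2)
          (by linarith : (0 : ℝ) ≤ a4 - a2)]
    have hW : 0 ≤ (2 * a4 + 2 * a3 + a1 - 9 / 8 * a2) * (a2 + a4) :=
      mul_nonneg (by linarith) (by linarith)
    calc β ^ 2 * a4 * (4 * a3 + a1) = β * (β * (a4 * (4 * a3 + a1))) := by ring
      _ ≤ β * (β * ((2 * a4 + 2 * a3 + a1 - 9 / 8 * a2) * (a2 + a4))) := by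
          apply mul_le_mul_of_nonneg_left _ hβ0.le
          exact mul_le_mul_of_nonneg_left e3 hβ0.le
      _ ≤ (2 + β) * (β * ((2 * a4 + 2 * a3 + a1 - 9 / 8 * a2) * (a2 + a4))) := by
          apply mul_le_mul_of_nonneg_right (by linarith)
          exact mul_nonneg hβ0.le hW
      _ = (2 + β) * (β * (2 * a4 + 2 * a3 + a1 - 9 / 8 * a2)) * (a2 + a4) := by ring
      _ ≤ _ := by
          apply mul_le_mul_of_nonneg_right _ (by linarith)
          exact mul_le_mul_of_nonneg_left hω (by linarith)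

/-- the inequality used if `α a₄ < ω` -/
theorem case2 (k : ℕ) (hk : 1 ≤ k) (a1 a2 a3 a4 : ℝ) (h1 : 0 < a1) (h12 : a1 ≤ a2) (h23 : a2 ≤ a3)
    (h34 : a3 ≤ a4) :
    ((2 : ℝ) ^ k) ^ 2 * (a1 + 2 * a3) ^ 2 ≤ (2 + 2 ^ k) * (3 ^ k * ((a1 + a3) * (a2 + a4)) +
      ((((3 : ℝ) ^ k - 2 ^ k) * a4 + 2 * 2 ^ k * a3 + 2 ^ k * a1 - (2 ^ k + 1) * a2) -
        3 ^ k * a4) * a3) := by
  obtain ⟨hb2, hab, h4, -⟩ := pow_facts k hk
  generalize hβ : (2 : ℝ) ^ k = β at *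
  generalize hα : (3 : ℝ) ^ k = α at *
  have hα0 : 0 < α := by linarith
  have h3 : 0 < a3 := by linarith
  have h2 : 0 < a2 := by linarith
  -- the bracket is at least its value at `a4 = a3`
  have e1 : α * a1 * a2 + (α + β) * (a1 * a3) + (α - β - 1) * (a2 * a3) + (α + β) * a3 ^ 2 ≤
      α * ((a1 + a3) * (a2 + a4)) + (((α - β) * a4 + 2 * β * a3 + β * a1 - (β + 1) * a2) -
        α * a4) * a3 := by
    have hc : 0 ≤ α * (a1 + a3) - β * a3 := by nlinarith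
    have := mul_nonneg hc (sub_nonneg.2 h34)
    nlinarith
  have e2 : β ^ 2 * (a1 + 2 * a3) ^ 2 ≤ (2 + β) * (α * a1 * a2 + (α + β) * (a1 * a3) +
      (α - β - 1) * (a2 * a3) + (α + β) * a3 ^ 2) := by
    have g1 : β ^ 2 * a1 ^ 2 ≤ (2 + β) * (α * a1 * a2) := by
      have k1 : β ^ 2 ≤ (2 + β) * α := by nlinarith
      have k2 : a1 ^ 2 ≤ a1 * a2 := by nlinarith
      calc β ^ 2 * a1 ^ 2 ≤ ((2 + β) * α) * (a1 * a2) :=
            mul_le_mul k1 k2 (by positivity) (by positivity)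
        _ = _ := by ring
    have g2 : 4 * β ^ 2 * (a1 * a3) ≤ (2 + β) * (α + β) * (a1 * a3) :=
      mul_le_mul_of_nonneg_right h4 (by positivity)
    have g3 : 4 * β ^ 2 * a3 ^ 2 ≤ (2 + β) * (α + β) * a3 ^ 2 :=
      mul_le_mul_of_nonneg_right h4 (by positivity)
    have g4 : 0 ≤ (2 + β) * ((α - β - 1) * (a2 * a3)) :=
      mul_nonneg (by linarith) (mul_nonneg (by linarith) (by positivity))
    nlinarith
  exact e2.trans (mul_le_mul_of_nonneg_left e1 (by linarith))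

theorem headH : S_H := by
  intro k hk a1 a2 a3 a4 d1 d2 d3 h1 h12 h23 h34 hd1 hd2 hd3 hQ hM
  have c1 := case1 k hk a1 a2 a3 a4 h1 h12 h23 h34
  have c2 := case2 k hk a1 a2 a3 a4 h1 h12 h23 h34
  obtain ⟨hb2, hab, -, -⟩ := pow_facts k hk
  have h4 : 0 < a4 := by linarith
  have h3 : 0 < a3 := by linarith
  have h2 : 0 < a2 := by linarith
  obtain ⟨ω, hω⟩ : ∃ ω : ℝ, ω = ((3 : ℝ) ^ k - 2 ^ k) * a4 + 2 * 2 ^ k * a3 + 2 ^ k * a1 -
    (2 ^ k + 1) * a2 := ⟨_, rfl⟩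
  rw [← hω] at c1 c2 ⊢
  have hω0 : 0 < ω := by
    rw [hω]
    nlinarith
  generalize hβ : (2 : ℝ) ^ k = β at *
  generalize hα : (3 : ℝ) ^ k = α at *
  have hα0 : 0 < α := by linarith
  obtain ⟨X, hX⟩ : ∃ X : ℝ, X = 2 * α * d1 + ω * (d3 / a4) := ⟨_, rfl⟩
  have hX0 : 0 < X := by rw [hX]; positivity
  have hXd : X * d2 = 2 * α * (d1 * d2) + (ω / a4) * (d2 * d3) := by
    rw [hX]; field_simp
  have key : β ^ 2 * (a1 + 2 * a3) ^ 2 ≤ (2 + β) * (X * d2) := by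
    rcases le_or_gt ω (α * a4) with hc | hc
    · have hq : ω / a4 ≤ α := by rw [div_le_iff₀ h4]; exact hc
      have hq0 : 0 < ω / a4 := by positivity
      have e1 : (ω / a4) * ((a1 + a3) * (a2 + a4)) ≤ X * d2 := by
        rw [hXd]
        calc (ω / a4) * ((a1 + a3) * (a2 + a4)) ≤ (ω / a4) * (d2 * (2 * d1 + d3)) :=
              mul_le_mul_of_nonneg_left hM hq0.le
          _ = 2 * (ω / a4) * (d1 * d2) + (ω / a4) * (d2 * d3) := by ring
          _ ≤ 2 * α * (d1 * d2) + (ω / a4) * (d2 * d3) := by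
              have : (ω / a4) * (d1 * d2) ≤ α * (d1 * d2) :=
                mul_le_mul_of_nonneg_right hq (by positivity)
              linarith
      have e2 : β ^ 2 * (4 * a3 + a1) ≤ (2 + β) * ((ω / a4) * (a2 + a4)) := by
        have : (2 + β) * ((ω / a4) * (a2 + a4)) = (2 + β) * ω * (a2 + a4) / a4 := by
          field_simp
        rw [this, le_div_iff₀ h4]
        calc β ^ 2 * (4 * a3 + a1) * a4 = β ^ 2 * a4 * (4 * a3 + a1) := by ring
          _ ≤ _ := c1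
      calc β ^ 2 * (a1 + 2 * a3) ^ 2 ≤ β ^ 2 * ((4 * a3 + a1) * (a1 + a3)) := by
            apply mul_le_mul_of_nonneg_left _ (by positivity)
            nlinarith [mul_pos h1 h3]
        _ = β ^ 2 * (4 * a3 + a1) * (a1 + a3) := by ring
        _ ≤ (2 + β) * ((ω / a4) * (a2 + a4)) * (a1 + a3) :=
            mul_le_mul_of_nonneg_right e2 (by linarith)
        _ = (2 + β) * ((ω / a4) * ((a1 + a3) * (a2 + a4))) := by ring
        _ ≤ (2 + β) * (X * d2) := mul_le_mul_of_nonneg_left e1 (by linarith)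
    · have hq : 0 ≤ ω / a4 - α := by
        have : α < ω / a4 := by rw [lt_div_iff₀ h4]; exact hc
        linarith
      have e1 : α * ((a1 + a3) * (a2 + a4)) + (ω - α * a4) * a3 ≤ X * d2 := by
        rw [hXd]
        calc α * ((a1 + a3) * (a2 + a4)) + (ω - α * a4) * a3
            = α * ((a1 + a3) * (a2 + a4)) + (ω / a4 - α) * (a3 * a4) := by field_simp
          _ ≤ α * (d2 * (2 * d1 + d3)) + (ω / a4 - α) * (d2 * d3) := by
              have g1 := mul_le_mul_of_nonneg_left hM hα0.le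
              have g2 := mul_le_mul_of_nonneg_left hQ hq
              linarith
          _ = _ := by ring
      exact c2.trans (mul_le_mul_of_nonneg_left e1 (by linarith))
  have hfin : 2 * β * (a1 + 2 * a3) ≤ X + (2 + β) * d2 := by
    refine (pow_le_pow_iff_left₀ (by positivity) (by positivity) two_ne_zero).1 ?_
    calc (2 * β * (a1 + 2 * a3)) ^ 2 = 4 * (β ^ 2 * (a1 + 2 * a3) ^ 2) := by ring
      _ ≤ 4 * ((2 + β) * (X * d2)) := by linarith
      _ ≤ (X + (2 + β) * d2) ^ 2 := by nlinarith [sq_nonneg (X - (2 + β) * d2)]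
  rw [hX] at hfin
  linarith

end Pool.Agent.W583.HT
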