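import Pool.Agent.W106.HT.Stm

set_option autoImplicit false

/-! HT project, task HT-TAIL: the tail of the final sum. -/

namespace Pool.Agent.W583.HT

open Pool.Agent.W106.HT
open Finset

/-- alternating sums -/
def ss (a : ℕ → ℝ) : ℕ → ℝ
  | 0 => 0
  | i + 1 => a (i + 1) - ss a i

/-- the coefficients of the induction -/
noncomputable def gg (a : ℕ → ℝ) (β : ℝ) (i : ℕ) : ℝ :=
  2 * β * ss a i + (-1) ^ i * (β * a 1 - (β - 1) * a 2)

theorem gg_succ (a : ℕ → ℝ) (β : ℝ) (i : ℕ) :
    gg a β (i + 1) = 2 * β * a (i + 1) - gg a β i := by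
  simp only [gg, ss, pow_succ]
  ring

theorem gg_two (a : ℕ → ℝ) (β : ℝ) : gg a β 2 = (β + 1) * a 2 - β * a 1 := by
  simp only [gg, ss]
  ring

theorem ss_sym (m : ℕ) (a : ℕ → ℝ) (ha : AF (2 * m) a) (l : ℕ) (hl : l ≤ m) :
    ss a (m + l) = ss a (m - l) := by
  induction l with
  | zero => rfl
  | succ l ih =>
    have h1 := ih (by omega)
    have h2 : ss a (m + (l + 1)) = a (m + l + 1) - ss a (m + l) := rfl
    obtain ⟨k, hk⟩ : ∃ k, m - l = k + 1 := ⟨m - l - 1, by omega⟩
    have h3 : ss a (m - l) = a (k + 1) - ss a k := by rw [hk]; rfl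
    have h4 : m - (l + 1) = k := by omega
    have h5 : a (m + l + 1) = a (k + 1) := by
      have := ha.sym (k + 1) (by omega) (by omega)
      rw [← this]
      congr 1
      omega
    rw [h2, h4, h1, h3, h5]
    ring

theorem ss_mono (n : ℕ) (a : ℕ → ℝ) (ha : AF n a) (i : ℕ) (hi : 2 * (i + 2) ≤ n) :
    ss a i ≤ ss a (i + 2) := by
  have h1 : ss a (i + 2) = a (i + 2) - (a (i + 1) - ss a i) := rfl
  have h2 := ha.mono (i + 1) (by omega) (by omega)
  rw [h1]
  linarith

theorem ss_even (n : ℕ) (a : ℕ → ℝ) (ha : AF n a) (k : ℕ) (hk : 2 * (2 * k + 2) ≤ n) :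
    ss a 2 ≤ ss a (2 * k + 2) := by
  induction k with
  | zero => exact le_refl _
  | succ k ih =>
    exact (ih (by omega)).trans (ss_mono n a ha (2 * k + 2) (by omega))

theorem ss_odd (n : ℕ) (a : ℕ → ℝ) (ha : AF n a) (k : ℕ) (hk : 2 * (2 * k + 3) ≤ n) :
    ss a 3 ≤ ss a (2 * k + 3) := by
  induction k with
  | zero => exact le_refl _
  | succ k ih =>
    exact (ih (by omega)).trans (ss_mono n a ha (2 * k + 3) (by omega))

/-- the lower half -/
theorem gg_nonneg_half (n : ℕ) (hn : 6 ≤ n) (a : ℕ → ℝ) (ha : AF n a) (β : ℝ) (hβ : 2 ≤ β) (i : ℕ)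
    (hi : 2 ≤ i) (h2 : 2 * i ≤ n) : 0 ≤ gg a β i := by
  have a1 := ha.pos 1 (by omega) (by omega)
  have a12 := ha.mono 1 (by omega) (by omega)
  have a23 := ha.mono 2 (by omega) (by omega)
  norm_num at a12 a23
  rcases Nat.even_or_odd' i with ⟨k, hk | hk⟩
  · obtain ⟨k', rfl⟩ : ∃ k', k = k' + 1 := ⟨k - 1, by omega⟩
    have hs := ss_even n a ha k' (by omega)
    have hi' : i = 2 * k' + 2 := by omega
    subst hi'
    have e2 : ss a 2 = a 2 - (a 1 - 0) := rfl
    have hp : (-1 : ℝ) ^ (2 * k' + 2) = 1 := by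
      rw [show 2 * k' + 2 = 2 * (k' + 1) by ring, pow_mul]; norm_num
    unfold gg
    rw [hp]
    have := mul_le_mul_of_nonneg_left hs (by linarith : (0 : ℝ) ≤ 2 * β)
    rw [e2] at this
    nlinarith
  · obtain ⟨k', rfl⟩ : ∃ k', k = k' + 1 := ⟨k - 1, by omega⟩
    have hs := ss_odd n a ha k' (by omega)
    have hi' : i = 2 * k' + 3 := by omega
    subst hi'
    have e2 : ss a 3 = a 3 - (a 2 - (a 1 - 0)) := rfl
    have hp : (-1 : ℝ) ^ (2 * k' + 3) = -1 := by
      rw [show 2 * k' + 3 = 2 * (k' + 1) + 1 by ring, pow_succ, pow_mul]; norm_num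
    unfold gg
    rw [hp]
    have := mul_le_mul_of_nonneg_left hs (by linarith : (0 : ℝ) ≤ 2 * β)
    rw [e2] at this
    nlinarith

theorem gg_sym (m : ℕ) (a : ℕ → ℝ) (ha : AF (2 * m) a) (β : ℝ) (i : ℕ) (hi : i ≤ 2 * m) :
    gg a β (2 * m - i) = gg a β i := by
  have hs : ss a (2 * m - i) = ss a i := by
    rcases le_total i m with h | h
    · have := ss_sym m a ha (m - i) (by omega)
      rw [show m + (m - i) = 2 * m - i by omega, show m - (m - i) = i by omega] at this
      exact this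
    · have := ss_sym m a ha (i - m) (by omega)
      rw [show m + (i - m) = i by omega, show m - (i - m) = 2 * m - i by omega] at this
      exact this.symm
  have hp : (-1 : ℝ) ^ (2 * m - i) = (-1) ^ i := by
    have h1 : (-1 : ℝ) ^ (2 * m - i) * (-1) ^ i = 1 := by
      rw [← pow_add, show 2 * m - i + i = 2 * m by omega, pow_mul]; norm_num
    have h2 : (-1 : ℝ) ^ i * (-1) ^ i = 1 := by
      rw [← mul_pow]; norm_num
    have h3 : ((-1 : ℝ)) ^ i ≠ 0 := pow_ne_zero _ (by norm_num)
    exact mul_right_cancel₀ h3 (h1.trans h2.symm)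
  unfold gg
  rw [hs, hp]

theorem gg_nonneg (n : ℕ) (hn : 6 ≤ n) (he : Even n) (a : ℕ → ℝ) (ha : AF n a) (β : ℝ)
    (hβ : 2 ≤ β) (i : ℕ) (hi : 2 ≤ i) (h2 : i + 4 ≤ n) : 0 ≤ gg a β i := by
  obtain ⟨m, rfl⟩ := he
  rcases le_total (2 * i) (m + m) with h | h
  · exact gg_nonneg_half (m + m) hn a ha β hβ i hi h
  · have ha' : AF (2 * m) a := by rw [two_mul]; exact ha
    rw [← gg_sym m a ha' β i (by omega)]
    exact gg_nonneg_half (m + m) hn a ha β hβ _ (by omega) (by omega)

theorem gg_last (n : ℕ) (hn : 6 ≤ n) (he : Even n) (a : ℕ → ℝ) (ha : AF n a) (β : ℝ) :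
    gg a β (n - 4) = 2 * β * (a 4 - a 3) + β * (a 2 - a 1) + a 2 := by
  obtain ⟨m, rfl⟩ := he
  have ha' : AF (2 * m) a := by rw [two_mul]; exact ha
  have := gg_sym m a ha' β 4 (by omega)
  rw [show m + m - 4 = 2 * m - 4 by omega, this]
  simp only [gg, ss]
  ring

/-- the two-term estimate -/
theorem two_term (x y A B g : ℝ) (hx : 0 < x) (hy : 0 < y) (hA : 0 < A) (hB : 0 < B)
    (h : A * B ≤ x * y) (hg : 0 ≤ g) : g * (1 - x / A) ≤ g * (y / B - 1) := by
  apply mul_le_mul_of_nonneg_left _ hg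
  have hu : 0 < x / A := by positivity
  have hv : 0 < y / B := by positivity
  have huv : 1 ≤ (x / A) * (y / B) := by
    rw [div_mul_div_comm, le_div_iff₀ (by positivity)]
    linarith
  nlinarith [sq_nonneg (x / A - y / B)]

/-- one step -/
theorem one_step (x y A B c g g' G : ℝ) (hx : 0 < x) (hy : 0 < y) (hA : 0 < A) (hB : 0 < B)
    (h : A * B ≤ x * y) (hg : 0 ≤ g) (hgg : g = c * B - g') (hG : g' * (1 - y / B) ≤ G) :
    g * (1 - x / A) ≤ c * (y - B) + G := by
  have h1 := two_term x y A B g hx hy hA hB h hg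
  have h2 : c * (y - B) = c * B * (y / B - 1) := by field_simp
  rw [h2]
  rw [hgg] at h1 ⊢
  linarith

theorem tail : S_tail := by
  intro n hn he a d ha hd hV β hβ
  obtain ⟨q, rfl⟩ : ∃ q, n = q + 6 := ⟨n - 6, by omega⟩
  have hap : ∀ i, 1 ≤ i → i ≤ q + 6 → 0 < a i := ha.pos
  have hdp : ∀ i, 1 ≤ i → i ≤ q + 5 → 0 < d i := fun i h1 h2 => hd.pos i h1 (by omega)
  have hs6 : a (q + 6) = a 1 := by
    have := ha.sym 1 (by omega) (by omega)
    rw [← this]; congr 1
  have hs5 : a (q + 5) = a 2 := by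
    have := ha.sym 2 (by omega) (by omega)
    rw [← this]; congr 1
  have key : ∀ p r, p + r = q → gg a β (p + 2) * (1 - d (r + 3) / a (r + 4)) ≤
      (∑ i ∈ Ico (r + 4) (q + 4), 2 * β * (d i - a (i + 1))) +
        ((β + 1) * (d (q + 4) - a (q + 5)) + β * (d (q + 5) - a (q + 6))) := by
    intro p
    induction p with
    | zero =>
      intro r hr
      obtain rfl : r = q := by omega
      rw [Finset.Ico_self, Finset.sum_empty]
      have h0 : (β * a 1) * (1 - d (r + 4) / a (r + 5)) ≤ β * (d (r + 5) - a (r + 6)) + 0 := by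
        apply one_step (d (r + 4)) (d (r + 5)) (a (r + 5)) (a (r + 6)) β _ 0 0
          (hdp _ (by omega) (by omega)) (hdp _ (by omega) (by omega))
          (hap _ (by omega) (by omega)) (hap _ (by omega) (by omega))
        · exact hV (r + 4) (by omega) (by omega)
        · exact mul_nonneg (by linarith) (hap 1 (by omega) (by omega)).le
        · rw [hs6]; ring
        · simp
      have h1 := one_step (d (r + 3)) (d (r + 4)) (a (r + 4)) (a (r + 5)) (β + 1)
        (gg a β (0 + 2)) (β * a 1) (β * (d (r + 5) - a (r + 6)))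
        (hdp _ (by omega) (by omega)) (hdp _ (by omega) (by omega))
        (hap _ (by omega) (by omega)) (hap _ (by omega) (by omega))
        (hV (r + 3) (by omega) (by omega))
        (gg_nonneg (r + 6) hn he a ha β hβ (0 + 2) (by omega) (by omega))
        (by rw [gg_two, hs5]) (by linarith)
      linarith
    | succ p ih =>
      intro r hr
      have h0 := ih (r + 1) (by omega)
      have hsym : a (r + 5) = a (p + 3) := by
        have := ha.sym (p + 3) (by omega) (by omega)
        rw [← this]; congr 1; omega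
      rw [Finset.sum_eq_sum_Ico_succ_bot (by omega : r + 4 < q + 4)]
      have e1 : r + 1 + 4 = r + 4 + 1 := by ring
      have e2 : r + 1 + 3 = r + 4 := by ring
      rw [e1, e2] at h0
      have h1 := one_step (d (r + 3)) (d (r + 4)) (a (r + 4)) (a (r + 4 + 1)) (2 * β)
        (gg a β (p + 1 + 2)) (gg a β (p + 2)) _
        (hdp _ (by omega) (by omega)) (hdp _ (by omega) (by omega))
        (hap _ (by omega) (by omega)) (hap _ (by omega) (by omega))
        (hV (r + 3) (by omega) (by omega))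
        (gg_nonneg (q + 6) hn he a ha β hβ (p + 1 + 2) (by omega) (by omega))
        (by
          have := gg_succ a β (p + 2)
          rw [show p + 1 + 2 = p + 2 + 1 by ring, this, hsym]) h0
      linarith
  have h := key q 0 (by omega)
  have hl := gg_last (q + 6) hn he a ha β
  rw [show q + 6 - 4 = q + 2 by omega] at hl
  rw [hl] at h
  have hI : Icc 4 (q + 6 - 3) = Ico 4 (q + 4) := by
    ext i
    simp only [Finset.mem_Icc, Finset.mem_Ico]
    omega
  rw [hI, show q + 6 - 2 = q + 4 by omega, show q + 6 - 1 = q + 5 by omega]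
  simp only [zero_add] at h
  linarith

end Pool.Agent.W583.HT
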