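import Pool.Agent.W106.HT.Card
import Pool.Agent.W272.HTCLASS

set_option autoImplicit false

/-! HT project, task HT-FOLD: the fold lemma. -/

namespace Pool.Agent.W583.HT

open Pool.Agent.W106.HT
open Finset

/-- `(a, a')` dominates `(c, c')`. -/
def Dom (a a' c c' : ℕ) : Prop := c ≤ a ∧ c' ≤ a ∧ c + c' ≤ a + a'

theorem dom_ineq {a a' c c' u u' x y : ℕ} (h : Dom a a' c c') (hu : Dom u u' x y) :
    c * x + c' * y ≤ a * u + a' * u' := by
  obtain ⟨h1, h2, h3⟩ := h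
  obtain ⟨k1, k2, k3⟩ := hu
  rcases le_total c' c with hc | hc
  · rcases le_total a' c' with ha | ha
    · obtain ⟨e, rfl⟩ := Nat.exists_eq_add_of_le (ha.trans hc)
      obtain ⟨e', rfl⟩ := Nat.exists_eq_add_of_le ha
      obtain ⟨f, rfl⟩ : ∃ f, a = a' + e + e' + f := ⟨a - (a' + e + e'), by omega⟩
      nlinarith [Nat.mul_le_mul_left a' k3, Nat.mul_le_mul_left e k1, Nat.mul_le_mul_left e' k2,
        Nat.zero_le (f * u)]
    · obtain ⟨e, rfl⟩ := Nat.exists_eq_add_of_le hc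
      obtain ⟨g, rfl⟩ := Nat.exists_eq_add_of_le ha
      obtain ⟨f, rfl⟩ := Nat.exists_eq_add_of_le h1
      nlinarith [Nat.mul_le_mul_left c' k3, Nat.mul_le_mul_left e k1, Nat.zero_le (f * u),
        Nat.zero_le (g * u')]
  · rcases le_total a' c with ha | ha
    · obtain ⟨e, rfl⟩ := Nat.exists_eq_add_of_le (ha.trans hc)
      obtain ⟨e', rfl⟩ := Nat.exists_eq_add_of_le ha
      obtain ⟨f, rfl⟩ : ∃ f, a = a' + e + e' + f := ⟨a - (a' + e + e'), by omega⟩
      nlinarith [Nat.mul_le_mul_left a' k3, Nat.mul_le_mul_left e k2, Nat.mul_le_mul_left e' k1,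
        Nat.zero_le (f * u)]
    · obtain ⟨e, rfl⟩ := Nat.exists_eq_add_of_le hc
      obtain ⟨g, rfl⟩ := Nat.exists_eq_add_of_le ha
      obtain ⟨f, rfl⟩ := Nat.exists_eq_add_of_le h2
      nlinarith [Nat.mul_le_mul_left c k3, Nat.mul_le_mul_left e k2, Nat.zero_le (f * u),
        Nat.zero_le (g * u')]

theorem dom_mul {a a' c c' u u' x y : ℕ} (h : Dom a a' c c') (hu : Dom u u' x y) :
    Dom (a * u) (a' * u') (c * x) (c' * y) :=
  ⟨Nat.mul_le_mul h.1 hu.1, Nat.mul_le_mul h.2.1 hu.2.1, dom_ineq h hu⟩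

open Classical in
/-- the entries of the adjacency matrix -/
noncomputable def ad {W : Type} (G : SimpleGraph W) (v w : W) : ℕ := if G.Adj v w then 1 else 0

/-- The conditions on the two graphs. -/
structure FC {W : Type} (Gp Gm : SimpleGraph W) (ρ : W → W) (v w : W) : Prop where
  one : Dom (ad Gp v w) (ad Gp v (ρ w)) (ad Gm v w) (ad Gm v (ρ w))
  two : Dom (ad Gp v w) (ad Gp v (ρ w)) (ad Gm (ρ v) w) (ad Gm (ρ v) (ρ w))
  three : Dom (ad Gp v w + ad Gp (ρ v) w) (ad Gp v (ρ w) + ad Gp (ρ v) (ρ w))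
    (ad Gm v w + ad Gm (ρ v) w) (ad Gm v (ρ w) + ad Gm (ρ v) (ρ w))

section abs

variable {W : Type} [Fintype W]

theorem sum_inv (ρ : W → W) (hρ : ∀ v, ρ (ρ v) = v) (f : W → ℕ) :
    ∑ w, (f w + f (ρ w)) = 2 * ∑ w, f w := by
  rw [Finset.sum_add_distrib]
  have : ∑ w, f (ρ w) = ∑ w, f w :=
    Fintype.sum_equiv ⟨ρ, ρ, hρ, hρ⟩ _ _ (fun _ => rfl)
  omega

theorem sum_le_inv (ρ : W → W) (hρ : ∀ v, ρ (ρ v) = v) (M : W → Prop) (hM : ∀ v, M v ∨ M (ρ v))
    (f g : W → ℕ) (h : ∀ w, M w → f w + f (ρ w) ≤ g w + g (ρ w)) : ∑ w, f w ≤ ∑ w, g w := by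
  have h2 : ∑ w, (f w + f (ρ w)) ≤ ∑ w, (g w + g (ρ w)) := by
    apply Finset.sum_le_sum
    intro w _
    rcases hM w with hw | hw
    · exact h w hw
    · have := h (ρ w) hw
      rw [hρ] at this
      omega
  rw [sum_inv ρ hρ, sum_inv ρ hρ] at h2
  omega

/-- the neighbour sum -/
noncomputable def NS (G : SimpleGraph W) (f : W → ℕ) (v : W) : ℕ := ∑ w, ad G v w * f w

theorem hv_att (G : SimpleGraph W) (a b : BT) (x : W) :
    hv G (.att a b) x = hv G a x * NS G (hv G b) x := by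
  classical
  show hv G a x * _ = _
  congr 1
  unfold NS ad
  apply Finset.sum_congr rfl
  intro y _
  by_cases h : G.Adj x y
  · rw [if_pos h, if_pos h, one_mul]
  · rw [if_neg h, if_neg h, zero_mul]

/-- The abstract fold lemma. -/
theorem fold_abs (Gp Gm : SimpleGraph W) (ρ : W → W) (hρ : ∀ v, ρ (ρ v) = v) (M : W → Prop)
    (hM : ∀ v, M v ∨ M (ρ v)) (hC : ∀ v w, M v → M w → FC Gp Gm ρ v w) (t : BT) :
    (∀ v, M v → Dom (hv Gp t v) (hv Gp t (ρ v)) (hv Gm t v) (hv Gm t (ρ v))) ∧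
      tot Gm t ≤ tot Gp t := by
  have key : ∀ v, M v → Dom (hv Gp t v) (hv Gp t (ρ v)) (hv Gm t v) (hv Gm t (ρ v)) := by
    induction t with
    | pt => intro v _; exact ⟨le_refl _, le_refl _, le_refl _⟩
    | att a b iha ihb =>
      intro v hv'
      simp only [hv_att]
      apply dom_mul (iha v hv')
      refine ⟨?_, ?_, ?_⟩
      · apply sum_le_inv ρ hρ M hM
        intro w hw
        exact dom_ineq (hC v w hv' hw).one (ihb w hw)
      · apply sum_le_inv ρ hρ M hM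
        intro w hw
        exact dom_ineq (hC v w hv' hw).two (ihb w hw)
      · unfold NS
        rw [← Finset.sum_add_distrib, ← Finset.sum_add_distrib]
        apply sum_le_inv ρ hρ M hM
        intro w hw
        have := dom_ineq (hC v w hv' hw).three (ihb w hw)
        nlinarith
  exact ⟨key, sum_le_inv ρ hρ M hM _ _ (fun w hw => (key w hw).2.2)⟩

end abs

/-! ### The host graphs -/

/-- adjacency of the host: a path with `n` vertices, `B` attached at `0`, `Z` attached at `iz` -/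
def hadj (n : ℕ) (B Z : BT) (iz : ℕ) : (Fin n ⊕ (B.V ⊕ Z.V)) → (Fin n ⊕ (B.V ⊕ Z.V)) → Prop
  | .inl i, .inl j => i.1 + 1 = j.1 ∨ j.1 + 1 = i.1
  | .inl i, .inr (.inl x) => i.1 = 0 ∧ x = B.root
  | .inr (.inl x), .inl i => i.1 = 0 ∧ x = B.root
  | .inl i, .inr (.inr x) => i.1 = iz ∧ x = Z.root
  | .inr (.inr x), .inl i => i.1 = iz ∧ x = Z.root
  | .inr (.inl x), .inr (.inl y) => B.Adj x y
  | .inr (.inr x), .inr (.inr y) => Z.Adj x y
  | .inr (.inl _), .inr (.inr _) => False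
  | .inr (.inr _), .inr (.inl _) => False

theorem hadj_symm (n : ℕ) (B Z : BT) (iz : ℕ) : ∀ u v, hadj n B Z iz u v → hadj n B Z iz v u
  | .inl _, .inl _, h => Or.symm h
  | .inl _, .inr (.inl _), h => h
  | .inr (.inl _), .inl _, h => h
  | .inl _, .inr (.inr _), h => h
  | .inr (.inr _), .inl _, h => h
  | .inr (.inl _), .inr (.inl _), h => BT.Adj.symm _ _ _ h
  | .inr (.inr _), .inr (.inr _), h => BT.Adj.symm _ _ _ h
  | .inr (.inl _), .inr (.inr _), h => h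
  | .inr (.inr _), .inr (.inl _), h => h

theorem hadj_irrefl (n : ℕ) (B Z : BT) (iz : ℕ) : ∀ u, ¬ hadj n B Z iz u u
  | .inl i, h => by
    have h' : i.1 + 1 = i.1 ∨ i.1 + 1 = i.1 := h
    omega
  | .inr (.inl _), h => BT.Adj.irrefl _ _ h
  | .inr (.inr _), h => BT.Adj.irrefl _ _ h

/-- the host -/
def host (n : ℕ) (B Z : BT) (iz : ℕ) : SimpleGraph (Fin n ⊕ (B.V ⊕ Z.V)) where
  Adj := hadj n B Z iz
  symm := ⟨hadj_symm n B Z iz⟩
  loopless := ⟨hadj_irrefl n B Z iz⟩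

/-! ### Chains -/

/-- adjacency of a chain with `A` at the end -/
def cadj (k : ℕ) (A : BT) : (Fin k ⊕ A.V) → (Fin k ⊕ A.V) → Prop
  | .inl i, .inl j => i.1 + 1 = j.1 ∨ j.1 + 1 = i.1
  | .inl i, .inr x => i.1 + 1 = k ∧ x = A.root
  | .inr x, .inl i => i.1 + 1 = k ∧ x = A.root
  | .inr x, .inr y => A.Adj x y

/-- the top of the chain -/
def ctop (k : ℕ) (A : BT) : (Fin k ⊕ A.V) → Prop
  | .inl i => i.1 = 0
  | .inr x => k = 0 ∧ x = A.root

/-- one more vertex at the top -/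
def topE (k : ℕ) (A : BT) : Unit ⊕ (Fin k ⊕ A.V) ≃ Fin (k + 1) ⊕ A.V where
  toFun
    | .inl _ => .inl 0
    | .inr (.inl i) => .inl i.succ
    | .inr (.inr x) => .inr x
  invFun
    | .inl i => Fin.cases (.inl ()) (fun j => .inr (.inl j)) i
    | .inr x => .inr (.inr x)
  left_inv := by
    rintro (⟨⟩ | (i | x)) <;> rfl
  right_inv := by
    rintro (i | x)
    · refine Fin.cases ?_ (fun j => ?_) i <;> rfl
    · rfl

theorem chain (k : ℕ) (A : BT) : ∃ e : (ch k A).V ≃ Fin k ⊕ A.V,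
    (∀ u, u = (ch k A).root ↔ ctop k A (e u)) ∧
    ∀ u v, (ch k A).Adj u v ↔ cadj k A (e u) (e v) := by
  induction k with
  | zero =>
    refine ⟨(Equiv.emptySum (Fin 0) A.V).symm, ?_, ?_⟩
    · intro u
      show u = A.root ↔ 0 = 0 ∧ u = A.root
      simp
    · intro u v
      rfl
  | succ k ih =>
    obtain ⟨e, h1, h2⟩ := ih
    refine ⟨(Equiv.sumCongr (Equiv.refl Unit) e).trans (topE k A), ?_, ?_⟩
    · rintro (⟨⟩ | u)
      · exact ⟨fun _ => rfl, fun _ => rfl⟩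
      · constructor
        · intro h
          exact absurd h (by intro h'; exact Sum.inr_ne_inl h')
        · intro h
          exfalso
          change ctop (k + 1) A (topE k A (Sum.inr (e u))) at h
          generalize e u = w at h
          rcases w with i | x
          · have h' : i.1 + 1 = 0 := h
            omega
          · have h' : k + 1 = 0 ∧ x = A.root := h
            omega
    · rintro (⟨⟩ | u) (⟨⟩ | v)
      · constructor
        · intro h; exact h.elim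
        · intro h
          have h' : (0 : ℕ) + 1 = 0 ∨ (0 : ℕ) + 1 = 0 := h
          omega
      · show (() = () ∧ v = (ch k A).root) ↔ cadj (k + 1) A (.inl 0) (topE k A (Sum.inr (e v)))
        rw [h1]
        rcases e v with i | x
        · show (() = () ∧ i.1 = 0) ↔ ((0 : ℕ) + 1 = i.1 + 1 ∨ i.1 + 1 + 1 = 0)
          constructor
          · rintro ⟨-, h⟩; omega
          · intro h; exact ⟨rfl, by omega⟩
        · show (() = () ∧ (k = 0 ∧ x = A.root)) ↔ ((0 : ℕ) + 1 = k + 1 ∧ x = A.root)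
          constructor
          · rintro ⟨-, h, h'⟩; exact ⟨by omega, h'⟩
          · rintro ⟨h, h'⟩; exact ⟨rfl, by omega, h'⟩
      · show (u = (ch k A).root ∧ () = ()) ↔ cadj (k + 1) A (topE k A (Sum.inr (e u))) (.inl 0)
        rw [h1]
        rcases e u with i | x
        · show (i.1 = 0 ∧ () = ()) ↔ (i.1 + 1 + 1 = 0 ∨ (0 : ℕ) + 1 = i.1 + 1)
          constructor
          · rintro ⟨h, -⟩; omega
          · intro h; exact ⟨by omega, rfl⟩
        · show ((k = 0 ∧ x = A.root) ∧ () = ()) ↔ ((0 : ℕ) + 1 = k + 1 ∧ x = A.root)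
          constructor
          · rintro ⟨⟨h, h'⟩, -⟩; exact ⟨by omega, h'⟩
          · rintro ⟨h, h'⟩; exact ⟨⟨by omega, h'⟩, rfl⟩
      · show (ch k A).Adj u v ↔ cadj (k + 1) A (topE k A (Sum.inr (e u))) (topE k A (Sum.inr (e v)))
        rw [h2]
        rcases e u with i | x <;> rcases e v with j | y
        · show (i.1 + 1 = j.1 ∨ j.1 + 1 = i.1) ↔ (i.1 + 1 + 1 = j.1 + 1 ∨ j.1 + 1 + 1 = i.1 + 1)
          omega
        · show (i.1 + 1 = k ∧ y = A.root) ↔ (i.1 + 1 + 1 = k + 1 ∧ y = A.root)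
          constructor
          · rintro ⟨h, h'⟩; exact ⟨by omega, h'⟩
          · rintro ⟨h, h'⟩; exact ⟨by omega, h'⟩
        · show (j.1 + 1 = k ∧ x = A.root) ↔ (j.1 + 1 + 1 = k + 1 ∧ x = A.root)
          constructor
          · rintro ⟨h, h'⟩; exact ⟨by omega, h'⟩
          · rintro ⟨h, h'⟩; exact ⟨by omega, h'⟩
        · exact Iff.rfl


/-- the last vertex of a chain without anything at the end -/
def lastE (m : ℕ) : Fin m ⊕ Unit ≃ Fin (m + 1) where
  toFun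
    | .inl i => i.castSucc
    | .inr _ => Fin.last m
  invFun i := Fin.lastCases (.inr ()) (fun j => .inl j) i
  left_inv := by
    rintro (i | ⟨⟩) <;> simp
  right_inv := by
    intro i
    refine Fin.lastCases ?_ (fun j => ?_) i <;> simp

theorem chain0 (m : ℕ) : ∃ e : (ch m .pt).V ≃ Fin (m + 1),
    (∀ u, u = (ch m .pt).root ↔ (e u).1 = 0) ∧
    ∀ u v, (ch m .pt).Adj u v ↔ ((e u).1 + 1 = (e v).1 ∨ (e v).1 + 1 = (e u).1) := by
  obtain ⟨e, h1, h2⟩ := chain m .pt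
  refine ⟨e.trans (lastE m), ?_, ?_⟩
  · intro u
    rw [h1]
    show ctop m .pt (e u) ↔ ((lastE m) (e u)).1 = 0
    generalize e u = w
    rcases w with i | ⟨⟩
    · exact Iff.rfl
    · show (m = 0 ∧ () = ()) ↔ m = 0
      exact ⟨fun h => h.1, fun h => ⟨h, rfl⟩⟩
  · intro u v
    rw [h2]
    show cadj m .pt (e u) (e v) ↔ (((lastE m) (e u)).1 + 1 = ((lastE m) (e v)).1 ∨
      ((lastE m) (e v)).1 + 1 = ((lastE m) (e u)).1)
    generalize e u = w
    generalize e v = w'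
    rcases w with i | ⟨⟩ <;> rcases w' with j | ⟨⟩
    · exact Iff.rfl
    · show (i.1 + 1 = m ∧ () = ()) ↔ (i.1 + 1 = m ∨ m + 1 = i.1)
      have := i.2
      exact ⟨fun h => Or.inl h.1, fun h => ⟨by omega, rfl⟩⟩
    · show (j.1 + 1 = m ∧ () = ()) ↔ (m + 1 = j.1 ∨ j.1 + 1 = m)
      have := j.2
      exact ⟨fun h => Or.inr h.1, fun h => ⟨by omega, rfl⟩⟩
    · show False ↔ (m + 1 = m ∨ m + 1 = m)
      constructor
      · intro h; exact h.elim
      · intro h; omega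

open Pool.Agent.W272.HTCLASS in
theorem isoP (m : ℕ) (B Z : BT) :
    Nonempty ((BT.att (BT.att (ch m .pt) B) Z).graph ≃g host (m + 1) B Z 0) := by
  obtain ⟨e, h1, h2⟩ := chain0 m
  refine ⟨{ toEquiv := (Equiv.sumAssoc _ _ _).trans (Equiv.sumCongr e (Equiv.refl _)),
            map_rel_iff' := ?_ }⟩
  rintro ((u | u) | u) ((v | v) | v)
  · exact (h2 u v).symm
  · exact and_congr (h1 u).symm Iff.rfl
  · show ((e u).1 = 0 ∧ v = Z.root) ↔
      ((Sum.inl u : (BT.att (ch m .pt) B).V) = (BT.att (ch m .pt) B).root ∧ v = Z.root)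
    rw [inl_root, h1]
  · show ((e v).1 = 0 ∧ u = B.root) ↔ (u = B.root ∧ v = (ch m .pt).root)
    rw [h1]; tauto
  · exact Iff.rfl
  · show False ↔
      ((Sum.inr u : (BT.att (ch m .pt) B).V) = (BT.att (ch m .pt) B).root ∧ v = Z.root)
    rw [inr_root]; tauto
  · show ((e v).1 = 0 ∧ u = Z.root) ↔
      (u = Z.root ∧ (Sum.inl v : (BT.att (ch m .pt) B).V) = (BT.att (ch m .pt) B).root)
    rw [inl_root, h1]; tauto
  · show False ↔
      (u = Z.root ∧ (Sum.inr v : (BT.att (ch m .pt) B).V) = (BT.att (ch m .pt) B).root)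
    rw [inr_root]; tauto
  · exact Iff.rfl

/-- relabelling for the first kind -/
def relE (K : ℕ) (X Y : Type) : Y ⊕ (Fin (K + 1) ⊕ X) ≃ Fin (K + 1) ⊕ (X ⊕ Y) where
  toFun
    | .inl z => .inr (.inr z)
    | .inr (.inl i) => .inl i.rev
    | .inr (.inr x) => .inr (.inl x)
  invFun
    | .inr (.inr z) => .inl z
    | .inl i => .inr (.inl i.rev)
    | .inr (.inl x) => .inr (.inr x)
  left_inv := by
    rintro (z | (i | x))
    · rfl
    · show Sum.inr (Sum.inl i.rev.rev) = _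
      rw [Fin.rev_rev]
    · rfl
  right_inv := by
    rintro (i | (x | z))
    · show Sum.inl i.rev.rev = _
      rw [Fin.rev_rev]
    · rfl
    · rfl

theorem isoE (K : ℕ) (B Z : BT) :
    Nonempty ((BT.att Z (ch (K + 1) B)).graph ≃g host (K + 1) B Z K) := by
  obtain ⟨e, h1, h2⟩ := chain (K + 1) B
  refine ⟨{ toEquiv := (Equiv.sumCongr (Equiv.refl _) e).trans (relE K B.V Z.V),
            map_rel_iff' := ?_ }⟩
  rintro (u | u) (v | v)
  · exact Iff.rfl
  · show (host (K + 1) B Z K).Adj (.inr (.inr u)) (relE K B.V Z.V (.inr (e v))) ↔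
      (u = Z.root ∧ v = (ch (K + 1) B).root)
    rw [h1]
    generalize e v = w
    rcases w with i | x
    · show (i.rev.1 = K ∧ u = Z.root) ↔ (u = Z.root ∧ i.1 = 0)
      have := i.2
      rw [Fin.val_rev]
      constructor
      · rintro ⟨h, h'⟩; exact ⟨h', by omega⟩
      · rintro ⟨h, h'⟩; exact ⟨by omega, h⟩
    · show False ↔ (u = Z.root ∧ (K + 1 = 0 ∧ x = B.root))
      constructor
      · intro h; exact h.elim
      · rintro ⟨-, h, -⟩; omega
  · show (host (K + 1) B Z K).Adj (relE K B.V Z.V (.inr (e u))) (.inr (.inr v)) ↔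
      (u = (ch (K + 1) B).root ∧ v = Z.root)
    rw [h1]
    generalize e u = w
    rcases w with i | x
    · show (i.rev.1 = K ∧ v = Z.root) ↔ (i.1 = 0 ∧ v = Z.root)
      have := i.2
      rw [Fin.val_rev]
      constructor
      · rintro ⟨h, h'⟩; exact ⟨by omega, h'⟩
      · rintro ⟨h, h'⟩; exact ⟨by omega, h'⟩
    · show False ↔ ((K + 1 = 0 ∧ x = B.root) ∧ v = Z.root)
      constructor
      · intro h; exact h.elim
      · rintro ⟨⟨h, -⟩, -⟩; omega
  · show (host (K + 1) B Z K).Adj (relE K B.V Z.V (.inr (e u))) (relE K B.V Z.V (.inr (e v))) ↔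
      (ch (K + 1) B).Adj u v
    rw [h2]
    generalize e u = w
    generalize e v = w'
    rcases w with i | x <;> rcases w' with j | y
    · show (i.rev.1 + 1 = j.rev.1 ∨ j.rev.1 + 1 = i.rev.1) ↔ (i.1 + 1 = j.1 ∨ j.1 + 1 = i.1)
      have := i.2
      have := j.2
      rw [Fin.val_rev, Fin.val_rev]
      omega
    · show (i.rev.1 = 0 ∧ y = B.root) ↔ (i.1 + 1 = K + 1 ∧ y = B.root)
      have := i.2
      rw [Fin.val_rev]
      constructor
      · rintro ⟨h, h'⟩; exact ⟨by omega, h'⟩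
      · rintro ⟨h, h'⟩; exact ⟨by omega, h'⟩
    · show (j.rev.1 = 0 ∧ x = B.root) ↔ (j.1 + 1 = K + 1 ∧ x = B.root)
      have := j.2
      rw [Fin.val_rev]
      constructor
      · rintro ⟨h, h'⟩; exact ⟨by omega, h'⟩
      · rintro ⟨h, h'⟩; exact ⟨by omega, h'⟩
    · exact Iff.rfl

/-- relabelling for the second kind -/
def relO (K : ℕ) (X Y : Type) : ((Fin (K + 1) ⊕ X) ⊕ Unit) ⊕ Y ≃ Fin (K + 2) ⊕ (X ⊕ Y) where
  toFun
    | .inr z => .inr (.inr z)
    | .inl (.inl (.inl i)) => .inl i.rev.castSucc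
    | .inl (.inl (.inr x)) => .inr (.inl x)
    | .inl (.inr _) => .inl (Fin.last (K + 1))
  invFun
    | .inr (.inr z) => .inr z
    | .inl i => .inl (Fin.lastCases (.inr ()) (fun j => .inl (.inl j.rev)) i)
    | .inr (.inl x) => .inl (.inl (.inr x))
  left_inv := by
    rintro (((i | x) | ⟨⟩) | z) <;> simp
  right_inv := by
    rintro (i | (x | z))
    · refine Fin.lastCases ?_ (fun j => ?_) i <;> simp
    · rfl
    · rfl

open Pool.Agent.W272.HTCLASS in
theorem isoO (K : ℕ) (B Z : BT) :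
    Nonempty ((N3 (ch K B) .pt Z).graph ≃g host (K + 2) B Z K) := by
  obtain ⟨e, h1, h2⟩ := chain (K + 1) B
  change Nonempty ((BT.att (BT.att (ch (K + 1) B) .pt) Z).graph ≃g host (K + 2) B Z K)
  refine ⟨{ toEquiv := (Equiv.sumCongr (Equiv.sumCongr e (Equiv.refl _)) (Equiv.refl _)).trans
              (relO K B.V Z.V),
            map_rel_iff' := ?_ }⟩
  rintro ((u | ⟨⟩) | u) ((v | ⟨⟩) | v)
  · show (host (K + 2) B Z K).Adj (relO K B.V Z.V (.inl (.inl (e u))))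
      (relO K B.V Z.V (.inl (.inl (e v)))) ↔ (ch (K + 1) B).Adj u v
    rw [h2]
    generalize e u = w
    generalize e v = w'
    rcases w with i | x <;> rcases w' with j | y
    · show (i.rev.1 + 1 = j.rev.1 ∨ j.rev.1 + 1 = i.rev.1) ↔ (i.1 + 1 = j.1 ∨ j.1 + 1 = i.1)
      have := i.2
      have := j.2
      rw [Fin.val_rev, Fin.val_rev]
      omega
    · show (i.rev.1 = 0 ∧ y = B.root) ↔ (i.1 + 1 = K + 1 ∧ y = B.root)
      have := i.2
      rw [Fin.val_rev]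
      constructor
      · rintro ⟨h, h'⟩; exact ⟨by omega, h'⟩
      · rintro ⟨h, h'⟩; exact ⟨by omega, h'⟩
    · show (j.rev.1 = 0 ∧ x = B.root) ↔ (j.1 + 1 = K + 1 ∧ x = B.root)
      have := j.2
      rw [Fin.val_rev]
      constructor
      · rintro ⟨h, h'⟩; exact ⟨by omega, h'⟩
      · rintro ⟨h, h'⟩; exact ⟨by omega, h'⟩
    · exact Iff.rfl
  · show (host (K + 2) B Z K).Adj (relO K B.V Z.V (.inl (.inl (e u)))) (.inl (Fin.last (K + 1))) ↔
      (u = (ch (K + 1) B).root ∧ () = ())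
    rw [h1]
    generalize e u = w
    rcases w with i | x
    · show (i.rev.1 + 1 = K + 1 ∨ K + 1 + 1 = i.rev.1) ↔ (i.1 = 0 ∧ () = ())
      have := i.2
      rw [Fin.val_rev]
      constructor
      · intro h; exact ⟨by omega, rfl⟩
      · rintro ⟨h, -⟩; omega
    · show (K + 1 = 0 ∧ x = B.root) ↔ ((K + 1 = 0 ∧ x = B.root) ∧ () = ())
      tauto
  · show (host (K + 2) B Z K).Adj (relO K B.V Z.V (.inl (.inl (e u)))) (.inr (.inr v)) ↔
      ((Sum.inl u : (BT.att (ch (K + 1) B) .pt).V) = (BT.att (ch (K + 1) B) .pt).root ∧ v = Z.root)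
    rw [inl_root, h1]
    generalize e u = w
    rcases w with i | x
    · show (i.rev.1 = K ∧ v = Z.root) ↔ (i.1 = 0 ∧ v = Z.root)
      have := i.2
      rw [Fin.val_rev]
      constructor
      · rintro ⟨h, h'⟩; exact ⟨by omega, h'⟩
      · rintro ⟨h, h'⟩; exact ⟨by omega, h'⟩
    · show False ↔ ((K + 1 = 0 ∧ x = B.root) ∧ v = Z.root)
      constructor
      · intro h; exact h.elim
      · rintro ⟨⟨h, -⟩, -⟩; omega
  · show (host (K + 2) B Z K).Adj (.inl (Fin.last (K + 1))) (relO K B.V Z.V (.inl (.inl (e v)))) ↔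
      (() = () ∧ v = (ch (K + 1) B).root)
    rw [h1]
    generalize e v = w
    rcases w with i | x
    · show (K + 1 + 1 = i.rev.1 ∨ i.rev.1 + 1 = K + 1) ↔ (() = () ∧ i.1 = 0)
      have := i.2
      rw [Fin.val_rev]
      constructor
      · intro h; exact ⟨rfl, by omega⟩
      · rintro ⟨-, h⟩; omega
    · show (K + 1 = 0 ∧ x = B.root) ↔ (() = () ∧ (K + 1 = 0 ∧ x = B.root))
      tauto
  · show (K + 1 + 1 = K + 1 ∨ K + 1 + 1 = K + 1) ↔ False
    constructor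
    · intro h; omega
    · intro h; exact h.elim
  · show (K + 1 = K ∧ v = Z.root) ↔
      ((Sum.inr () : (BT.att (ch (K + 1) B) .pt).V) = (BT.att (ch (K + 1) B) .pt).root ∧ v = Z.root)
    constructor
    · rintro ⟨h, -⟩; omega
    · rintro ⟨h, -⟩; exact absurd h (by intro h'; exact Sum.inr_ne_inl h')
  · show (host (K + 2) B Z K).Adj (.inr (.inr u)) (relO K B.V Z.V (.inl (.inl (e v)))) ↔
      (u = Z.root ∧ (Sum.inl v : (BT.att (ch (K + 1) B) .pt).V) = (BT.att (ch (K + 1) B) .pt).root)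
    rw [inl_root, h1]
    generalize e v = w
    rcases w with i | x
    · show (i.rev.1 = K ∧ u = Z.root) ↔ (u = Z.root ∧ i.1 = 0)
      have := i.2
      rw [Fin.val_rev]
      constructor
      · rintro ⟨h, h'⟩; exact ⟨h', by omega⟩
      · rintro ⟨h, h'⟩; exact ⟨by omega, h⟩
    · show False ↔ (u = Z.root ∧ (K + 1 = 0 ∧ x = B.root))
      constructor
      · intro h; exact h.elim
      · rintro ⟨-, h, -⟩; omega
  · show (K + 1 = K ∧ u = Z.root) ↔
      (u = Z.root ∧ (Sum.inr () : (BT.att (ch (K + 1) B) .pt).V) = (BT.att (ch (K + 1) B) .pt).root)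
    constructor
    · rintro ⟨h, -⟩; omega
    · rintro ⟨-, h⟩; exact absurd h (by intro h'; exact Sum.inr_ne_inl h')
  · exact Iff.rfl


/-! ### The conditions -/

theorem ad_eq {W : Type} (G : SimpleGraph W) (v w : W) (p : Prop) [Decidable p]
    (h : G.Adj v w ↔ p) : ad G v w = if p then 1 else 0 := by
  unfold ad
  by_cases hp : p
  · rw [if_pos hp, if_pos (h.2 hp)]
  · rw [if_neg hp, if_neg (fun h' => hp (h.1 h'))]

section entries

variable {n : ℕ} {B Z : BT} {iz : ℕ}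

theorem adPP (i j : Fin n) : ad (host n B Z iz) (.inl i) (.inl j) =
    if i.1 + 1 = j.1 ∨ j.1 + 1 = i.1 then 1 else 0 := ad_eq _ _ _ _ Iff.rfl

theorem adPB (i : Fin n) (x : B.V) : ad (host n B Z iz) (.inl i) (.inr (.inl x)) =
    if i.1 = 0 ∧ x = B.root then 1 else 0 := ad_eq _ _ _ _ Iff.rfl

theorem adBP (i : Fin n) (x : B.V) : ad (host n B Z iz) (.inr (.inl x)) (.inl i) =
    if i.1 = 0 ∧ x = B.root then 1 else 0 := ad_eq _ _ _ _ Iff.rfl

theorem adPZ (i : Fin n) (x : Z.V) : ad (host n B Z iz) (.inl i) (.inr (.inr x)) =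
    if i.1 = iz ∧ x = Z.root then 1 else 0 := ad_eq _ _ _ _ Iff.rfl

theorem adZP (i : Fin n) (x : Z.V) : ad (host n B Z iz) (.inr (.inr x)) (.inl i) =
    if i.1 = iz ∧ x = Z.root then 1 else 0 := ad_eq _ _ _ _ Iff.rfl

theorem adBZ (x : B.V) (y : Z.V) : ad (host n B Z iz) (.inr (.inl x)) (.inr (.inr y)) = 0 := by
  rw [ad_eq _ _ _ False Iff.rfl]; simp

theorem adZB (x : B.V) (y : Z.V) : ad (host n B Z iz) (.inr (.inr y)) (.inr (.inl x)) = 0 := by
  rw [ad_eq _ _ _ False Iff.rfl]; simp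

theorem adBB (iz' : ℕ) (x y : B.V) : ad (host n B Z iz) (.inr (.inl x)) (.inr (.inl y)) =
    ad (host n B Z iz') (.inr (.inl x)) (.inr (.inl y)) := rfl

theorem adZZ (iz' : ℕ) (x y : Z.V) : ad (host n B Z iz) (.inr (.inr x)) (.inr (.inr y)) =
    ad (host n B Z iz') (.inr (.inr x)) (.inr (.inr y)) := rfl

end entries

/-- the four entries give the condition -/
theorem fc_of {W : Type} {Gp Gm : SimpleGraph W} {ρ : W → W} {v w : W} {a a' b b' c c' d d' : ℕ}
    (ha : ad Gp v w = a) (ha' : ad Gp v (ρ w) = a') (hb : ad Gp (ρ v) w = b)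
    (hb' : ad Gp (ρ v) (ρ w) = b') (hc : ad Gm v w = c) (hc' : ad Gm v (ρ w) = c')
    (hd : ad Gm (ρ v) w = d) (hd' : ad Gm (ρ v) (ρ w) = d')
    (h : (c ≤ a ∧ c' ≤ a ∧ c + c' ≤ a + a') ∧ (d ≤ a ∧ d' ≤ a ∧ d + d' ≤ a + a') ∧
      (c + d ≤ a + b ∧ c' + d' ≤ a + b ∧ c + d + (c' + d') ≤ a + b + (a' + b'))) :
    FC Gp Gm ρ v w := by
  obtain ⟨h1, h2, h3⟩ := h
  constructor
  · rw [ha, ha', hc, hc']; exact h1
  · rw [ha, ha', hd, hd']; exact h2
  · rw [ha, ha', hb, hb', hc, hc', hd, hd']; exact h3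

/-- the reflection, first kind -/
def rhoE (K : ℕ) (B Z : BT) : (Fin (K + 1) ⊕ (B.V ⊕ Z.V)) → (Fin (K + 1) ⊕ (B.V ⊕ Z.V))
  | .inl i => .inl i.rev
  | .inr x => .inr x

/-- the dominating vertices -/
def domM (n K : ℕ) (B Z : BT) : (Fin n ⊕ (B.V ⊕ Z.V)) → Prop
  | .inl i => 2 * i.1 ≤ K
  | .inr _ => True

theorem condE (l : ℕ) (B Z : BT) (v w : Fin (2 * l + 2 + 1) ⊕ (B.V ⊕ Z.V))
    (hv : domM (2 * l + 2 + 1) (2 * l + 2) B Z v) (hw : domM (2 * l + 2 + 1) (2 * l + 2) B Z w) :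
    FC (host (2 * l + 2 + 1) B Z 0) (host (2 * l + 2 + 1) B Z (2 * l + 2)) (rhoE (2 * l + 2) B Z)
      v w := by
  classical
  rcases v with i | (x | x) <;> rcases w with j | (y | y)
  · have hi : 2 * i.1 ≤ 2 * l + 2 := hv
    have hj : 2 * j.1 ≤ 2 * l + 2 := hw
    refine fc_of (adPP _ _) (adPP _ _) (adPP _ _) (adPP _ _) (adPP _ _) (adPP _ _) (adPP _ _)
      (adPP _ _) ?_
    simp only [Fin.val_rev]
    have e1 : (2 * l + 2 + 1 - (i.1 + 1) + 1 = 2 * l + 2 + 1 - (j.1 + 1) ∨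
      2 * l + 2 + 1 - (j.1 + 1) + 1 = 2 * l + 2 + 1 - (i.1 + 1)) ↔
        (i.1 + 1 = j.1 ∨ j.1 + 1 = i.1) := by omega
    have e2 : (2 * l + 2 + 1 - (i.1 + 1) + 1 = j.1 ∨ j.1 + 1 = 2 * l + 2 + 1 - (i.1 + 1)) ↔
        (i.1 + 1 = 2 * l + 2 + 1 - (j.1 + 1) ∨ 2 * l + 2 + 1 - (j.1 + 1) + 1 = i.1) := by omega
    have e3 : (i.1 + 1 = 2 * l + 2 + 1 - (j.1 + 1) ∨ 2 * l + 2 + 1 - (j.1 + 1) + 1 = i.1) →
        (i.1 + 1 = j.1 ∨ j.1 + 1 = i.1) := by omega
    simp only [e1, e2]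
    split_ifs with g1 g2 <;> omega
  · have hi : 2 * i.1 ≤ 2 * l + 2 := hv
    have e1 : ¬ (2 * l + 2 + 1 - (i.1 + 1) = 0) := by omega
    refine fc_of (adPB _ _) (adPB _ _) (adPB _ _) (adPB _ _) (adPB _ _) (adPB _ _) (adPB _ _)
      (adPB _ _) ?_
    simp only [Fin.val_rev, e1, false_and, if_false]
    omega
  · have hi : 2 * i.1 ≤ 2 * l + 2 := hv
    have e1 : ¬ (2 * l + 2 + 1 - (i.1 + 1) = 0) := by omega
    have e2 : ¬ (i.1 = 2 * l + 2) := by omega
    have e3 : 2 * l + 2 + 1 - (i.1 + 1) = 2 * l + 2 ↔ i.1 = 0 := by have := i.2; omega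
    refine fc_of (adPZ _ _) (adPZ _ _) (adPZ _ _) (adPZ _ _) (adPZ _ _) (adPZ _ _) (adPZ _ _)
      (adPZ _ _) ?_
    simp only [Fin.val_rev, e1, e2, e3, false_and, if_false]
    omega
  · have hj : 2 * j.1 ≤ 2 * l + 2 := hw
    have e1 : ¬ (2 * l + 2 + 1 - (j.1 + 1) = 0) := by omega
    refine fc_of (adBP _ _) (adBP _ _) (adBP _ _) (adBP _ _) (adBP _ _) (adBP _ _) (adBP _ _)
      (adBP _ _) ?_
    simp only [Fin.val_rev, e1, false_and, if_false]
    omega
  · obtain ⟨e, he⟩ : ∃ e, ad (host (2 * l + 2 + 1) B Z 0) (.inr (.inl x)) (.inr (.inl y)) = e :=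
      ⟨_, rfl⟩
    refine fc_of he he he he he he he he ?_
    omega
  · refine fc_of (adBZ _ _) (adBZ _ _) (adBZ _ _) (adBZ _ _) (adBZ _ _) (adBZ _ _) (adBZ _ _)
      (adBZ _ _) ?_
    omega
  · have hj : 2 * j.1 ≤ 2 * l + 2 := hw
    have e1 : ¬ (2 * l + 2 + 1 - (j.1 + 1) = 0) := by omega
    have e2 : ¬ (j.1 = 2 * l + 2) := by omega
    have e3 : 2 * l + 2 + 1 - (j.1 + 1) = 2 * l + 2 ↔ j.1 = 0 := by have := j.2; omega
    refine fc_of (adZP _ _) (adZP _ _) (adZP _ _) (adZP _ _) (adZP _ _) (adZP _ _) (adZP _ _)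
      (adZP _ _) ?_
    simp only [Fin.val_rev, e1, e2, e3, false_and, if_false]
    omega
  · refine fc_of (adZB _ _) (adZB _ _) (adZB _ _) (adZB _ _) (adZB _ _) (adZB _ _) (adZB _ _)
      (adZB _ _) ?_
    omega
  · obtain ⟨e, he⟩ : ∃ e, ad (host (2 * l + 2 + 1) B Z 0) (.inr (.inr x)) (.inr (.inr y)) = e :=
      ⟨_, rfl⟩
    refine fc_of he he he he he he he he ?_
    omega

theorem foldE : S_foldE := by
  intro B Z l t
  have hm : tot (BT.att Z (ch (2 * l + 3) B)).graph t =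
      tot (host (2 * l + 2 + 1) B Z (2 * l + 2)) t := congr _ _ _ _ (isoE (2 * l + 2) B Z) t
  have hp : tot (N3 B (ch (2 * l + 1) .pt) Z).graph t = tot (host (2 * l + 2 + 1) B Z 0) t := by
    obtain ⟨e, -⟩ := Pool.Agent.W272.HTCLASS.RIso.att
      (Pool.Agent.W272.HTCLASS.RIso.swap .pt B (ch (2 * l + 1) .pt))
      (Pool.Agent.W272.HTCLASS.RIso.refl Z)
    obtain ⟨f⟩ := isoP (2 * l + 2) B Z
    exact congr _ _ _ _ ⟨e.trans f⟩ t
  rw [hm, hp]
  refine (fold_abs _ _ (rhoE (2 * l + 2) B Z) ?_ (domM (2 * l + 2 + 1) (2 * l + 2) B Z) ?_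
    (condE l B Z) t).2
  · rintro (i | x)
    · show Sum.inl i.rev.rev = _
      rw [Fin.rev_rev]
    · rfl
  · rintro (i | x)
    · show 2 * i.1 ≤ 2 * l + 2 ∨ 2 * i.rev.1 ≤ 2 * l + 2
      rw [Fin.val_rev]
      omega
    · exact Or.inl trivial


theorem fc_of' {W : Type} {Gp Gm : SimpleGraph W} {ρ : W → W} {v w v' w' : W}
    {a a' b b' c c' d d' : ℕ} (hv : ρ v = v') (hw : ρ w = w')
    (ha : ad Gp v w = a) (ha' : ad Gp v w' = a') (hb : ad Gp v' w = b)
    (hb' : ad Gp v' w' = b') (hc : ad Gm v w = c) (hc' : ad Gm v w' = c')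
    (hd : ad Gm v' w = d) (hd' : ad Gm v' w' = d')
    (h : (c ≤ a ∧ c' ≤ a ∧ c + c' ≤ a + a') ∧ (d ≤ a ∧ d' ≤ a ∧ d + d' ≤ a + a') ∧
      (c + d ≤ a + b ∧ c' + d' ≤ a + b ∧ c + d + (c' + d') ≤ a + b + (a' + b'))) :
    FC Gp Gm ρ v w := by
  subst hv hw
  exact fc_of ha ha' hb hb' hc hc' hd hd' h

open Classical in
/-- the reflection, second kind -/
noncomputable def rhoO (K : ℕ) (B Z : BT) :
    (Fin (K + 2) ⊕ (B.V ⊕ Z.V)) → (Fin (K + 2) ⊕ (B.V ⊕ Z.V))
  | .inl i => if i.1 ≤ K then .inl ⟨K - i.1, by omega⟩ else .inr (.inl B.root)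
  | .inr (.inl x) => if x = B.root then .inl (Fin.last (K + 1)) else .inr (.inl x)
  | .inr (.inr x) => .inr (.inr x)

theorem rhoO_P (K : ℕ) (B Z : BT) (i : Fin (K + 2)) (h : i.1 ≤ K) :
    rhoO K B Z (.inl i) = .inl ⟨K - i.1, by omega⟩ := if_pos h

theorem rhoO_P' (K : ℕ) (B Z : BT) (i : Fin (K + 2)) (h : ¬ i.1 ≤ K) :
    rhoO K B Z (.inl i) = .inr (.inl B.root) := if_neg h

theorem rhoO_B (K : ℕ) (B Z : BT) : rhoO K B Z (.inr (.inl B.root)) = .inl (Fin.last (K + 1)) :=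
  if_pos rfl

theorem rhoO_B' (K : ℕ) (B Z : BT) (x : B.V) (h : x ≠ B.root) :
    rhoO K B Z (.inr (.inl x)) = .inr (.inl x) := if_neg h

theorem condO (l : ℕ) (B Z : BT) (v w : Fin (2 * l + 2 + 2) ⊕ (B.V ⊕ Z.V))
    (hv : domM (2 * l + 2 + 2) (2 * l + 2) B Z v) (hw : domM (2 * l + 2 + 2) (2 * l + 2) B Z w) :
    FC (host (2 * l + 2 + 2) B Z 0) (host (2 * l + 2 + 2) B Z (2 * l + 2)) (rhoO (2 * l + 2) B Z)
      v w := by
  classical
  rcases v with i | (x | x) <;> rcases w with j | (y | y)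
  · have hi : 2 * i.1 ≤ 2 * l + 2 := hv
    have hj : 2 * j.1 ≤ 2 * l + 2 := hw
    refine fc_of' (rhoO_P _ B Z i (by omega)) (rhoO_P _ B Z j (by omega)) (adPP _ _) (adPP _ _)
      (adPP _ _) (adPP _ _) (adPP _ _) (adPP _ _) (adPP _ _) (adPP _ _) ?_
    dsimp only
    have e1 : (2 * l + 2 - i.1 + 1 = 2 * l + 2 - j.1 ∨ 2 * l + 2 - j.1 + 1 = 2 * l + 2 - i.1) ↔
        (i.1 + 1 = j.1 ∨ j.1 + 1 = i.1) := by omega
    have e2 : (2 * l + 2 - i.1 + 1 = j.1 ∨ j.1 + 1 = 2 * l + 2 - i.1) ↔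
        (i.1 + 1 = 2 * l + 2 - j.1 ∨ 2 * l + 2 - j.1 + 1 = i.1) := by omega
    simp only [e1, e2]
    split_ifs with g1 g2 <;> omega
  · have hi : 2 * i.1 ≤ 2 * l + 2 := hv
    by_cases hy : y = B.root
    · subst hy
      refine fc_of' (rhoO_P _ B Z i (by omega)) (rhoO_B _ B Z) (adPB _ _) (adPP _ _)
        (adPB _ _) (adPP _ _) (adPB _ _) (adPP _ _) (adPB _ _) (adPP _ _) ?_
      simp only [and_true, Fin.val_last]
      split_ifs <;> omega
    · refine fc_of' (rhoO_P _ B Z i (by omega)) (rhoO_B' _ B Z y hy) (adPB _ _) (adPB _ _)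
        (adPB _ _) (adPB _ _) (adPB _ _) (adPB _ _) (adPB _ _) (adPB _ _) ?_
      simp only [hy, and_false, if_false]
      omega
  · have hi : 2 * i.1 ≤ 2 * l + 2 := hv
    by_cases hy : y = Z.root
    · refine fc_of' (rhoO_P _ B Z i (by omega)) rfl (adPZ _ _) (adPZ _ _)
        (adPZ _ _) (adPZ _ _) (adPZ _ _) (adPZ _ _) (adPZ _ _) (adPZ _ _) ?_
      simp only [hy, and_true]
      split_ifs <;> omega
    · refine fc_of' (rhoO_P _ B Z i (by omega)) rfl (adPZ _ _) (adPZ _ _)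
        (adPZ _ _) (adPZ _ _) (adPZ _ _) (adPZ _ _) (adPZ _ _) (adPZ _ _) ?_
      simp only [hy, and_false, if_false]
      omega
  · have hj : 2 * j.1 ≤ 2 * l + 2 := hw
    by_cases hx : x = B.root
    · subst hx
      refine fc_of' (rhoO_B _ B Z) (rhoO_P _ B Z j (by omega)) (adBP _ _) (adBP _ _)
        (adPP _ _) (adPP _ _) (adBP _ _) (adBP _ _) (adPP _ _) (adPP _ _) ?_
      simp only [and_true, Fin.val_last]
      split_ifs <;> omega
    · refine fc_of' (rhoO_B' _ B Z x hx) (rhoO_P _ B Z j (by omega)) (adBP _ _) (adBP _ _)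
        (adBP _ _) (adBP _ _) (adBP _ _) (adBP _ _) (adBP _ _) (adBP _ _) ?_
      simp only [hx, and_false, if_false]
      omega
  · obtain ⟨e, he⟩ : ∃ e, ad (host (2 * l + 2 + 2) B Z 0) (.inr (.inl x)) (.inr (.inl y)) = e :=
      ⟨_, rfl⟩
    by_cases hx : x = B.root <;> by_cases hy : y = B.root
    · subst hx hy
      have he0 : e = 0 := by
        rw [← he, ad_eq _ _ _ False ⟨fun h => BT.Adj.irrefl _ _ h, False.elim⟩]; simp
      refine fc_of' (rhoO_B _ B Z) (rhoO_B _ B Z) he (adBP _ _) (adPB _ _) (adPP _ _) he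
        (adBP _ _) (adPB _ _) (adPP _ _) ?_
      have e1 : ¬ (2 * l + 2 + 1 = 0) := by omega
      have e2 : ¬ (2 * l + 2 + 1 + 1 = 2 * l + 2 + 1) := by omega
      simp only [Fin.val_last, e1, e2, false_and, or_false, if_false]
      omega
    · subst hx
      refine fc_of' (rhoO_B _ B Z) (rhoO_B' _ B Z y hy) he he (adPB _ _) (adPB _ _) he he
        (adPB _ _) (adPB _ _) ?_
      simp only [hy, and_false, if_false]
      omega
    · subst hy
      refine fc_of' (rhoO_B' _ B Z x hx) (rhoO_B _ B Z) he (adBP _ _) he (adBP _ _) he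
        (adBP _ _) he (adBP _ _) ?_
      simp only [hx, and_false, if_false]
      omega
    · refine fc_of' (rhoO_B' _ B Z x hx) (rhoO_B' _ B Z y hy) he he he he he he he he ?_
      omega
  · by_cases hx : x = B.root
    · subst hx
      refine fc_of' (rhoO_B _ B Z) rfl (adBZ _ _) (adBZ _ _) (adPZ _ _) (adPZ _ _) (adBZ _ _)
        (adBZ _ _) (adPZ _ _) (adPZ _ _) ?_
      have e1 : ¬ (2 * l + 2 + 1 = 0) := by omega
      have e2 : ¬ (2 * l + 2 + 1 = 2 * l + 2) := by omega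
      simp only [Fin.val_last, e1, e2, false_and, if_false]
      omega
    · refine fc_of' (rhoO_B' _ B Z x hx) rfl (adBZ _ _) (adBZ _ _) (adBZ _ _) (adBZ _ _)
        (adBZ _ _) (adBZ _ _) (adBZ _ _) (adBZ _ _) ?_
      omega
  · have hj : 2 * j.1 ≤ 2 * l + 2 := hw
    by_cases hx : x = Z.root
    · refine fc_of' rfl (rhoO_P _ B Z j (by omega)) (adZP _ _) (adZP _ _)
        (adZP _ _) (adZP _ _) (adZP _ _) (adZP _ _) (adZP _ _) (adZP _ _) ?_
      simp only [hx, and_true]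
      split_ifs <;> omega
    · refine fc_of' rfl (rhoO_P _ B Z j (by omega)) (adZP _ _) (adZP _ _)
        (adZP _ _) (adZP _ _) (adZP _ _) (adZP _ _) (adZP _ _) (adZP _ _) ?_
      simp only [hx, and_false, if_false]
      omega
  · by_cases hy : y = B.root
    · subst hy
      refine fc_of' rfl (rhoO_B _ B Z) (adZB _ _) (adZP _ _) (adZB _ _) (adZP _ _) (adZB _ _)
        (adZP _ _) (adZB _ _) (adZP _ _) ?_
      have e1 : ¬ (2 * l + 2 + 1 = 0) := by omega
      have e2 : ¬ (2 * l + 2 + 1 = 2 * l + 2) := by omega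
      simp only [Fin.val_last, e1, e2, false_and, if_false]
      omega
    · refine fc_of' rfl (rhoO_B' _ B Z y hy) (adZB _ _) (adZB _ _) (adZB _ _) (adZB _ _)
        (adZB _ _) (adZB _ _) (adZB _ _) (adZB _ _) ?_
      omega
  · obtain ⟨e, he⟩ : ∃ e, ad (host (2 * l + 2 + 2) B Z 0) (.inr (.inr x)) (.inr (.inr y)) = e :=
      ⟨_, rfl⟩
    refine fc_of' rfl rfl he he he he he he he he ?_
    omega

theorem foldO : S_foldO := by
  intro B Z l t
  rcases Nat.eq_zero_or_pos l with rfl | hl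
  · exact le_refl _
  obtain ⟨l, rfl⟩ : ∃ k, l = k + 1 := ⟨l - 1, by omega⟩
  have hm : tot (N3 (ch (2 * (l + 1)) B) .pt Z).graph t =
      tot (host (2 * l + 2 + 2) B Z (2 * l + 2)) t := congr _ _ _ _ (isoO (2 * l + 2) B Z) t
  have hp : tot (N3 B (ch (2 * (l + 1)) .pt) Z).graph t =
      tot (host (2 * l + 2 + 2) B Z 0) t := by
    obtain ⟨e, -⟩ := Pool.Agent.W272.HTCLASS.RIso.att
      (Pool.Agent.W272.HTCLASS.RIso.swap .pt B (ch (2 * (l + 1)) .pt))
      (Pool.Agent.W272.HTCLASS.RIso.refl Z)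
    obtain ⟨f⟩ := isoP (2 * l + 2 + 1) B Z
    exact congr _ _ _ _ ⟨e.trans f⟩ t
  rw [hm, hp]
  refine (fold_abs _ _ (rhoO (2 * l + 2) B Z) ?_ (domM (2 * l + 2 + 2) (2 * l + 2) B Z) ?_
    (condO l B Z) t).2
  · rintro (i | (x | x))
    · by_cases h : i.1 ≤ 2 * l + 2
      · rw [rhoO_P _ B Z i h, rhoO_P _ B Z _ (by dsimp only; omega)]
        congr 1
        apply Fin.ext
        dsimp only
        omega
      · rw [rhoO_P' _ B Z i h, rhoO_B]
        congr 1
        apply Fin.ext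
        rw [Fin.val_last]
        omega
    · by_cases h : x = B.root
      · rw [h, rhoO_B, rhoO_P' _ B Z _ (by rw [Fin.val_last]; omega)]
      · rw [rhoO_B' _ B Z x h, rhoO_B' _ B Z x h]
    · rfl
  · rintro (i | x)
    · by_cases h : i.1 ≤ 2 * l + 2
      · rw [rhoO_P _ B Z i h]
        show 2 * i.1 ≤ 2 * l + 2 ∨ 2 * (2 * l + 2 - i.1) ≤ 2 * l + 2
        omega
      · rw [rhoO_P' _ B Z i h]
        exact Or.inr trivial
    · exact Or.inl trivial

end Pool.Agent.W583.HT
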